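import Pool.Agent.W559.Wr.Stm

/-!
Sylow subgroups of symmetric groups are iterated products and wreath products.
-/

set_option autoImplicit false

namespace Pool.Agent.W125.Wr

open Pool.Agent.W559.Wr

/-- cardinality of a wreath product -/
theorem card_wrGrp {ι ι' : Type} [Fintype ι] [Fintype ι'] [Nonempty ι]
    (P : Subgroup (Equiv.Perm ι)) (P' : Subgroup (Equiv.Perm ι')) :
    Nat.card (wrGrp P P') = Nat.card P ^ Fintype.card ι' * Nat.card P' := by
  classical
  have h1 : ∀ (a : (ι' → P) × P'), ∃ f : Equiv.Perm (ι × ι'),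
      ∀ i j, f (i, j) = ((a.1 j : Equiv.Perm ι) i, (a.2 : Equiv.Perm ι') j) := by
    rintro ⟨g, h⟩
    refine ⟨⟨fun x => ((g x.2 : Equiv.Perm ι) x.1, (h : Equiv.Perm ι') x.2),
      fun x => ((g ((h : Equiv.Perm ι').symm x.2) : Equiv.Perm ι).symm x.1,
        (h : Equiv.Perm ι').symm x.2), ?_, ?_⟩, fun i j => rfl⟩
    · rintro ⟨i, j⟩
      simp
    · rintro ⟨i, j⟩
      simp
  choose F hF using h1
  have hmem : ∀ a, F a ∈ wrGrp P P' := fun a =>
    ⟨a.2, a.2.2, fun j => (a.1 j : Equiv.Perm ι), fun j => (a.1 j).2, fun i j => hF a i j⟩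
  have hbij : Function.Bijective (fun a => (⟨F a, hmem a⟩ : wrGrp P P')) := by
    constructor
    · rintro ⟨g, h⟩ ⟨g', h'⟩ hab
      have h2 : F (g, h) = F (g', h') := congrArg Subtype.val hab
      have h3 : ∀ i j, ((g j : Equiv.Perm ι) i, (h : Equiv.Perm ι') j) =
          ((g' j : Equiv.Perm ι) i, (h' : Equiv.Perm ι') j) := by
        intro i j
        have e1 := hF (g, h) i j
        have e2 := hF (g', h') i j
        rw [h2] at e1
        exact e1.symm.trans e2
      refine Prod.ext ?_ ?_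
      · funext j
        apply Subtype.ext
        ext i
        exact (Prod.ext_iff.1 (h3 i j)).1
      · apply Subtype.ext
        ext j
        exact (Prod.ext_iff.1 (h3 (Classical.arbitrary ι) j)).2
    · rintro ⟨f, h, hh, g, hg, hf⟩
      refine ⟨(fun j => ⟨g j, hg j⟩, ⟨h, hh⟩), ?_⟩
      apply Subtype.ext
      apply Equiv.ext
      rintro ⟨i, j⟩
      show F _ (i, j) = f (i, j)
      rw [hF, hf]
  rw [← Nat.card_eq_of_bijective _ hbij, Nat.card_prod, Nat.card_fun, Nat.card_eq_fintype_card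
    (α := ι')]

/-- cardinality of a product -/
theorem card_prodGrp {ι ι' : Type} (P : Subgroup (Equiv.Perm ι)) (P' : Subgroup (Equiv.Perm ι')) :
    Nat.card (prodGrp P P') = Nat.card P * Nat.card P' := by
  have hmem : ∀ a : P × P', Equiv.sumCongr (a.1 : Equiv.Perm ι) (a.2 : Equiv.Perm ι') ∈
      prodGrp P P' := fun a =>
    ⟨a.1, a.1.2, a.2, a.2.2, fun i => rfl, fun i => rfl⟩
  have hbij : Function.Bijective (fun a : P × P' =>
      (⟨Equiv.sumCongr (a.1 : Equiv.Perm ι) (a.2 : Equiv.Perm ι'), hmem a⟩ : prodGrp P P')) := by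
    constructor
    · rintro ⟨g, h⟩ ⟨g', h'⟩ hab
      have h2 : Equiv.sumCongr (g : Equiv.Perm ι) (h : Equiv.Perm ι') =
        Equiv.sumCongr (g' : Equiv.Perm ι) (h' : Equiv.Perm ι') := congrArg Subtype.val hab
      refine Prod.ext ?_ ?_
      · apply Subtype.ext
        ext i
        have := congrArg (fun f : Equiv.Perm (ι ⊕ ι') => f (Sum.inl i)) h2
        simpa using this
      · apply Subtype.ext
        ext i
        have := congrArg (fun f : Equiv.Perm (ι ⊕ ι') => f (Sum.inr i)) h2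
        simpa using this
    · rintro ⟨f, g, hg, h, hh, h1, h2⟩
      refine ⟨(⟨g, hg⟩, ⟨h, hh⟩), ?_⟩
      apply Subtype.ext
      apply Equiv.ext
      rintro (i | i)
      · exact (h1 i).symm
      · exact (h2 i).symm
  rw [← Nat.card_eq_of_bijective _ hbij, Nat.card_prod]

theorem card_finRotate {p : ℕ} (hp : 2 ≤ p) :
    Nat.card (Subgroup.zpowers (finRotate p)) = p := by
  rw [Nat.card_zpowers, ← Equiv.Perm.lcm_cycleType, cycleType_finRotate_of_le hp]
  simp

/-- A predicate on permutation groups with the closure properties contains the Sylow subgroups of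
the symmetric groups. -/
theorem absSyl (p : ℕ) [hp : Fact p.Prime]
    (Q : ∀ (ι : Type) [Fintype ι], Subgroup (Equiv.Perm ι) → Prop)
    (hcyc : ∀ (n : ℕ) (π : Equiv.Perm (Fin n)), π ^ (p * p) = 1 → Q (Fin n) (Subgroup.zpowers π))
    (hrel : ∀ (ι ι' : Type) [Fintype ι] [Fintype ι'] (f : ι ≃ ι') (P : Subgroup (Equiv.Perm ι)),
      Q ι P → Q ι' (P.map (f.permCongrHom : Equiv.Perm ι ≃* Equiv.Perm ι').toMonoidHom))
    (hsum : ∀ (ι ι' : Type) [Fintype ι] [Fintype ι'] (P : Subgroup (Equiv.Perm ι))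
      (P' : Subgroup (Equiv.Perm ι')), Q ι P → Q ι' P' → Q (ι ⊕ ι') (prodGrp P P'))
    (hwr : ∀ (ι ι' : Type) [Fintype ι] [Fintype ι'] (P : Subgroup (Equiv.Perm ι))
      (P' : Subgroup (Equiv.Perm ι')), Q ι P → Q ι' P' → Q (ι × ι') (wrGrp P P')) :
    ∀ (n : ℕ) (P : Sylow p (Equiv.Perm (Fin n))), Q (Fin n) (P : Subgroup (Equiv.Perm (Fin n))) := by
  have hbot : ∀ n, Q (Fin n) ⊥ := fun n => by
    have := hcyc n 1 (one_pow _)
    rwa [Subgroup.zpowers_one_eq_bot] at this
  have hcardG : ∀ n : ℕ, Nat.card (Equiv.Perm (Fin n)) = n.factorial := fun n => by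
    rw [Nat.card_eq_fintype_card, Fintype.card_perm, Fintype.card_fin]
  have hcS : ∀ (n : ℕ) (P : Sylow p (Equiv.Perm (Fin n))),
      Nat.card P = p ^ padicValNat p n.factorial := fun n P => by
    rw [P.card_eq_multiplicity, hcardG, Nat.factorization_def _ hp.out]
  intro n
  induction n using Nat.strong_induction_on with
  | _ n ih =>
  intro P
  by_cases hn : n < p
  · have h1 : padicValNat p n.factorial = 0 := by
      apply padicValNat.eq_zero_of_not_dvd
      rw [hp.out.dvd_factorial]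
      omega
    have h2 : Nat.card P = 1 := by rw [hcS, h1, pow_zero]
    have h3 : (P : Subgroup (Equiv.Perm (Fin n))) = ⊥ := by
      rw [← Subgroup.card_eq_one]
      exact h2
    rw [h3]
    exact hbot n
  · push Not at hn
    have hp2 : 2 ≤ p := hp.out.two_le
    obtain ⟨q, r, hnq, hr⟩ : ∃ q r, n = p * q + r ∧ r < p :=
      ⟨n / p, n % p, (Nat.div_add_mod n p).symm, Nat.mod_lt _ hp.out.pos⟩
    have hq : 0 < q := by
      rcases Nat.eq_zero_or_pos q with h | h
      · subst h
        omega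
      · exact h
    have hqn : q < n := by nlinarith
    have : NeZero p := ⟨hp.out.ne_zero⟩
    obtain ⟨S⟩ : Nonempty (Sylow p (Equiv.Perm (Fin q))) := inferInstance
    have hC : Q (Fin p) (Subgroup.zpowers (finRotate p)) := by
      apply hcyc
      rw [pow_mul]
      have : finRotate p ^ p = 1 := by
        have h := pow_orderOf_eq_one (finRotate p)
        rwa [← Nat.card_zpowers, card_finRotate hp2] at h
      rw [this, one_pow]
    have hP0 := hsum _ _ _ _ (hwr _ _ _ _ hC (ih q hqn S)) (hbot r)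
    have e : (Fin p × Fin q) ⊕ Fin r ≃ Fin n := Fintype.equivFinOfCardEq (by
      rw [Fintype.card_sum, Fintype.card_prod, Fintype.card_fin, Fintype.card_fin,
        Fintype.card_fin, hnq])
    have hP1 := hrel _ _ e _ hP0
    set P1 : Subgroup (Equiv.Perm (Fin n)) :=
      (prodGrp (wrGrp (Subgroup.zpowers (finRotate p)) (S : Subgroup (Equiv.Perm (Fin q))))
        (⊥ : Subgroup (Equiv.Perm (Fin r)))).map
        (e.permCongrHom : Equiv.Perm ((Fin p × Fin q) ⊕ Fin r) ≃* Equiv.Perm (Fin n)).toMonoidHom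
      with hP1d
    have hcard : Nat.card P1 = p ^ padicValNat p n.factorial := by
      rw [hP1d, Subgroup.card_map_of_injective (MulEquiv.injective _), card_prodGrp, card_wrGrp,
        card_finRotate hp2, Subgroup.card_bot, mul_one, Fintype.card_fin, hnq,
        padicValNat_factorial_mul_add q hr, padicValNat_factorial_mul, pow_add, mul_comm]
      congr 1
      exact hcS q S
    have hcard' : Nat.card P1 = p ^ (Nat.card (Equiv.Perm (Fin n))).factorization p := by
      rw [hcard, hcardG, Nat.factorization_def _ hp.out]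
    obtain ⟨g, hg⟩ := MulAction.exists_smul_eq (Equiv.Perm (Fin n)) (Sylow.ofCard P1 hcard') P
    have hP2 := hrel _ _ g _ hP1
    convert hP2 using 1
    rw [← hg, Sylow.coe_subgroup_smul, Sylow.coe_ofCard]
    ext x
    rw [Subgroup.mem_map, Subgroup.mem_smul_pointwise_iff_exists]
    constructor
    · rintro ⟨s, hs, rfl⟩
      refine ⟨s, hs, ?_⟩
      ext i
      simp [Equiv.permCongrHom, Equiv.Perm.inv_def]
    · rintro ⟨s, hs, rfl⟩
      refine ⟨s, hs, ?_⟩
      ext i
      simp [Equiv.permCongrHom, Equiv.Perm.inv_def]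

universe u

/-- Sylow subgroups, absolute version. -/
theorem syl0 (hcyc : CycStm.{u}) (hsum : SumStm.{u}) (hwr : WrStm.{u}) (hrel : RelStm.{u}) :
    SylStm.{u} := by
  intro k _ p hp hk n P
  refine absSyl p (fun ι _ P => QQ k ι P) ?_ (fun ι ι' _ _ f P h => hrel k ι ι' f P h)
    (fun ι ι' _ _ P P' h h' => hsum k ι ι' P P' h h')
    (fun ι ι' _ _ P P' h h' => hwr k ι ι' P P' h h') n P
  intro n π hπ
  refine hcyc k p 1 hp.out hk (by simp) ⟨1, IsPrimitiveRoot.one⟩ n π ?_
  rw [mul_one]
  exact hπ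

end Pool.Agent.W125.Wr
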