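import Pool.Agent.W559.Wr.StmR
import Pool.Agent.W125.Wr.Abs

/-!
Sylow subgroups of symmetric groups, relative version.
-/

set_option autoImplicit false

namespace Pool.Agent.W125.Wr

open Pool.Agent.W559.Wr

universe u

/-- Sylow subgroups, relative version. -/
theorem syl (hcyc : CycRStm.{u}) (hsum : SumRStm.{u}) (hwr : WrRStm.{u}) (hrel : RelRStm.{u}) :
    SylRStm.{u} := by
  intro k _ p hp hk n P
  refine absSyl p (fun ι _ P => QQR k ι P) ?_ (fun ι ι' _ _ f P h => hrel k ι ι' f P h)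
    (fun ι ι' _ _ P P' h h' => hsum k ι ι' P P' h h')
    (fun ι ι' _ _ P P' h h' => hwr k ι ι' P P' h h') n P
  intro n π hπ
  refine hcyc k p 1 hp.out hk (by simp) ⟨1, IsPrimitiveRoot.one⟩ n π ?_
  rw [mul_one]
  exact hπ

end Pool.Agent.W125.Wr
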